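import Mathlib
import Pool.Agent.Work.MP_ce2d68_st.Interface

set_option autoImplicit false

open Polynomial Filter Topology
open scoped ComplexConjugate

namespace Pool.Agent.Work.MP_ce2d68_st.helper30

theorem stmt_EIS : Stmt_EIS := by
  intro n G hn hG
  set q : ℤ[X] := 2 + 4 * G with hq
  have hqdeg : q.degree < (n : WithBot ℕ) := by
    rw [hq]
    refine lt_of_le_of_lt (degree_add_le _ _) (max_lt ?_ ?_)
    · have h1 : (2 : ℤ[X]).degree ≤ 0 := by
        rw [show (2 : ℤ[X]) = C 2 by rfl]; exact degree_C_le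
      exact lt_of_le_of_lt h1 (by exact_mod_cast hn)
    · have h1 : (4 * G : ℤ[X]).degree ≤ G.degree := by
        rw [show (4 : ℤ[X]) = C 4 by rfl]
        exact (degree_C_mul (by norm_num : (4 : ℤ) ≠ 0)).le
      exact lt_of_le_of_lt h1 hG
  have heq : (X ^ n + 2 + 4 * G : ℤ[X]) = X ^ n + q := by rw [hq, add_assoc]
  rw [heq]
  have hmonic : (X ^ n + q).Monic := monic_X_pow_add hqdeg
  have hdeg : (X ^ n + q).degree = (n : WithBot ℕ) := by
    rw [degree_add_eq_left_of_degree_lt (by rw [degree_X_pow]; exact hqdeg), degree_X_pow]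
  have hnat : (X ^ n + q).natDegree = n := natDegree_eq_of_degree_eq_some hdeg
  have hcoeff : ∀ i, i < n → (X ^ n + q).coeff i = 2 * ((if i = 0 then 1 else 0) + 2 * G.coeff i) := by
    intro i hi
    rw [coeff_add, coeff_X_pow, if_neg (by omega), hq, coeff_add,
      show (4 : ℤ[X]) = C 4 by rfl, coeff_C_mul, show (2 : ℤ[X]) = C 2 by rfl, coeff_C]
    split_ifs <;> ring
  have h0 : (X ^ n + q).coeff 0 = 2 * (1 + 2 * G.coeff 0) := by
    rw [hcoeff 0 (by omega)]; simp
  refine ⟨hmonic, hnat, ?_, ?_⟩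
  · have hprime : (Ideal.span {(2 : ℤ)}).IsPrime := by
      rw [Ideal.span_singleton_prime (by norm_num)]
      exact Int.prime_two
    apply irreducible_of_eisenstein_criterion hprime
    · rw [hmonic.leadingCoeff, Ideal.mem_span_singleton]
      norm_num
    · intro i hi
      rw [hdeg] at hi
      rw [hcoeff i (by exact_mod_cast hi), Ideal.mem_span_singleton]
      exact Dvd.intro _ rfl
    · rw [hdeg]; exact_mod_cast hn
    · rw [h0, Ideal.span_singleton_pow, Ideal.mem_span_singleton]
      intro hdvd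
      obtain ⟨c, hc⟩ := hdvd
      omega
    · exact hmonic.isPrimitive
  · rw [h0, abs_mul]
    have h1 : (1 : ℤ) ≤ |1 + 2 * G.coeff 0| := by
      apply Int.one_le_abs
      omega
    have h2 : |(2 : ℤ)| = 2 := rfl
    rw [h2]
    linarith

end Pool.Agent.Work.MP_ce2d68_st.helper30
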