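import Mathlib
import Pool.Agent.Work.MP_ce2d68_st.Interface

set_option autoImplicit false

open Polynomial Filter Topology
open scoped ComplexConjugate

namespace Pool.Agent.Work.MP_ce2d68_st.helper30

lemma adm_mono {θ θ' : ℝ} (h : θ ≤ θ') {P : ℤ[X]} (hP : Adm θ P) : Adm θ' P :=
  ⟨hP.1, hP.2.1, hP.2.2.1, fun z hz => (hP.2.2.2.1 z hz).trans h, hP.2.2.2.2⟩

lemma adm_deg {θ : ℝ} {P : ℤ[X]} (hP : Adm θ P) : 0 < P.natDegree := by
  by_contra h
  have h0 : P.natDegree = 0 := by omega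
  have h1 : P = 1 := hP.1.natDegree_eq_zero.mp h0
  exact hP.2.1.not_isUnit (h1 ▸ isUnit_one)

lemma ach_mono {θ θ' : ℝ} (h : θ ≤ θ') {x : ℝ} (hx : Ach θ x) : Ach θ' x := by
  intro ε hε D
  obtain ⟨F, h1, h2, h3⟩ := hx ε hε D
  exact ⟨F, adm_mono h h1, h2, h3⟩

section

variable {θ : ℝ}

lemma ach_lower {L x : ℝ} (hL : ∀ P : ℤ[X], Adm θ P → L ≤ lv P) (hx : Ach θ x) : L ≤ x := by
  by_contra h
  push Not at h
  obtain ⟨F, h1, -, h3⟩ := hx ((L - x) / 2) (by linarith) 0
  have := hL F h1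
  linarith

end

/-- the facts about `lec` -/
lemma lec_facts (hPOL : Stmt_POL) (hLAN : Stmt_LAN) (hGOL : Stmt_GOL) {θ : ℝ} (h0 : 0 < θ)
    (hπ : θ < Real.pi) : 0 < lec θ ∧ Ach θ (lec θ) ∧ ∀ x, Ach θ x → lec θ ≤ x := by
  obtain ⟨L, hL0, hL⟩ := hLAN θ h0 hπ
  have hbdd : BddBelow {x : ℝ | Ach θ x} := ⟨L, fun x hx => ach_lower hL hx⟩
  have hne : {x : ℝ | Ach θ x}.Nonempty := by
    obtain ⟨k, -, hk⟩ := hPOL θ h0 hπ
    refine ⟨_, hk θ le_rfl hπ {X ^ 2 - 3 * X + 1} (Finset.singleton_nonempty _) ?_⟩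
    intro P hP
    rw [Finset.mem_singleton] at hP
    rw [hP]
    exact adm_mono h0.le hGOL.1
  have hle : ∀ x, Ach θ x → lec θ ≤ x := fun x hx => csInf_le hbdd hx
  refine ⟨?_, ?_, hle⟩
  · exact lt_of_lt_of_le hL0 (le_csInf hne fun x hx => ach_lower hL hx)
  · intro ε hε D
    obtain ⟨x, hx, hxl⟩ := exists_lt_of_csInf_lt hne (show lec θ < lec θ + ε / 2 by linarith)
    obtain ⟨F, h1, h2, h3⟩ := hx (ε / 2) (by linarith) D
    exact ⟨F, h1, h2, by linarith⟩

theorem stmt_LEP (hPOL : Stmt_POL) (hCNT : Stmt_CNT) (hSTR : Stmt_STR) (hLAN : Stmt_LAN)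
    (hGOL : Stmt_GOL) : Stmt_LEP := by
  have hf : ∀ θ : ℝ, 0 < θ → θ < Real.pi →
      0 < lec θ ∧ Ach θ (lec θ) ∧ ∀ x, Ach θ x → lec θ ≤ x :=
    fun θ h1 h2 => lec_facts hPOL hLAN hGOL h1 h2
  have hanti : ∀ θ θ' : ℝ, 0 < θ → θ ≤ θ' → θ' < Real.pi → lec θ' ≤ lec θ := by
    intro θ θ' h0 h1 h2
    exact (hf θ' (by linarith) h2).2.2 _ (ach_mono h1 (hf θ h0 (by linarith)).2.1)
  refine ⟨hf, ?_, ?_, ?_, ?_⟩
  · -- continuity
    intro θ hθ
    apply ContinuousAt.continuousWithinAt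
    rw [Metric.continuousAt_iff]
    intro ε hε
    obtain ⟨hθ0, hθπ⟩ := hθ
    obtain ⟨δ, hδ, D, hD⟩ := hCNT (θ / 2) ((θ + Real.pi) / 2) (by linarith) (by linarith)
      (by linarith) (ε / 3) (by linarith)
    -- uniform estimate
    have huni : ∀ a b : ℝ, θ / 2 ≤ a → a ≤ b → b ≤ (θ + Real.pi) / 2 → b ≤ a + δ →
        lec a ≤ lec b + 2 * (ε / 3) := by
      intro a b ha hab hb hbδ
      obtain ⟨F, hF1, hF2, hF3⟩ := (hf b (by linarith) (by linarith)).2.1 (ε / 3) (by linarith) D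
      have h1 := hD a ha (by linarith) F (adm_mono hbδ hF1) hF2
      have h2 := (hf a (by linarith) (by linarith)).2.2 _ h1
      linarith
    refine ⟨min δ (min (θ / 2) ((Real.pi - θ) / 2)), by
      apply lt_min hδ; apply lt_min <;> linarith, ?_⟩
    intro x hx
    rw [Real.dist_eq] at hx ⊢
    have hx1 : |x - θ| < δ := lt_of_lt_of_le hx (min_le_left _ _)
    have hx2 : |x - θ| < θ / 2 := lt_of_lt_of_le hx ((min_le_right _ _).trans (min_le_left _ _))
    have hx3 : |x - θ| < (Real.pi - θ) / 2 :=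
      lt_of_lt_of_le hx ((min_le_right _ _).trans (min_le_right _ _))
    rw [abs_lt] at hx1 hx2 hx3
    rw [abs_lt]
    rcases le_total x θ with h | h
    · have h1 := huni x θ (by linarith) h (by linarith) (by linarith)
      have h2 := hanti x θ (by linarith) h hθπ
      constructor <;> linarith
    · have h1 := huni θ x (by linarith) h (by linarith) (by linarith)
      have h2 := hanti θ x hθ0 h (by linarith)
      constructor <;> linarith
  · -- strict monotonicity
    intro θ hθ θ' hθ' hlt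
    obtain ⟨L, hL0, hL⟩ := hLAN θ hθ.1 hθ.2
    obtain ⟨γ, hγ, D, hD⟩ := hSTR θ θ' L (lec θ + 1) hθ.1 hlt hθ'.2 hL0
    obtain ⟨F, hF1, hF2, hF3⟩ := (hf θ hθ.1 hθ.2).2.1 (min (γ / 2) 1)
      (lt_min (by linarith) one_pos) D
    have h1 := hD F hF1 hF2 (hL F hF1) (by have := min_le_right (γ / 2) 1; linarith)
    have h2 := (hf θ' hθ'.1 hθ'.2).2.2 _ h1
    have := min_le_left (γ / 2) 1
    show lec θ' < lec θ
    linarith
  · -- finiteness
    intro θ h0 hπ x hx
    by_contra hinf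
    have hinf' : {P : ℤ[X] | Adm θ P ∧ lv P ≤ x}.Infinite := hinf
    have hach : Ach θ x := by
      intro ε hε D
      by_contra hcon
      push Not at hcon
      apply hinf'
      apply (finite_mahlerMeasure_le D (Real.toNNReal (Real.exp (|x| * D)))).subset
      intro P hP
      obtain ⟨hP1, hP2⟩ := hP
      have hdeg : P.natDegree < D := by
        by_contra hcon2
        have := hcon P hP1 (by omega)
        linarith
      refine ⟨hdeg.le, ?_⟩
      have hd : (0 : ℝ) < P.natDegree := by exact_mod_cast adm_deg hP1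
      have hM : 0 < MM P := lt_trans one_pos hP1.2.2.2.2
      have hlog : Real.log (MM P) ≤ |x| * D := by
        have h1 : Real.log (MM P) = lv P * P.natDegree := by
          unfold lv; field_simp
        rw [h1]
        calc lv P * P.natDegree ≤ |x| * P.natDegree :=
              mul_le_mul_of_nonneg_right (hP2.trans (le_abs_self x)) hd.le
          _ ≤ |x| * D := mul_le_mul_of_nonneg_left (by exact_mod_cast hdeg.le) (abs_nonneg x)
      rw [Real.coe_toNNReal _ (Real.exp_pos _).le]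
      rw [Real.log_le_iff_le_exp hM] at hlog
      exact hlog
    have := (hf θ h0 hπ).2.2 x hach
    linarith
  · intro θ₀ h0 hπ
    obtain ⟨k, hk0, hk⟩ := hPOL θ₀ h0 hπ
    refine ⟨k, hk0, ?_⟩
    intro θ hθ hθπ Ps hPs
    rcases Ps.eq_empty_or_nonempty with rfl | hne
    · simp [dg]
    · have h1 := (hf θ (by linarith) hθπ).2.2 _ (hk θ hθ hθπ Ps hne hPs)
      have hdg : (0 : ℝ) < dg Ps := by
        have : 0 < dg Ps := by
          obtain ⟨P, hP⟩ := hne
          have h2 := adm_deg (hPs P hP)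
          have h3 : P.natDegree ≤ dg Ps :=
            Finset.single_le_sum (f := fun P : ℤ[X] => P.natDegree) (fun _ _ => Nat.zero_le _) hP
          omega
        exact_mod_cast this
      rw [le_div_iff₀ hdg] at h1
      exact h1

end Pool.Agent.Work.MP_ce2d68_st.helper30
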