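import Mathlib
import Pool.Agent.Work.MP_ce2d68_st.Interface

set_option autoImplicit false

open Polynomial Filter Topology
open scoped ComplexConjugate

namespace Pool.Agent.Work.MP_ce2d68_st.helper30

lemma ach_le' {θ x y : ℝ} (h : x ≤ y) (hx : Ach θ x) : Ach θ y := by
  intro ε hε D
  obtain ⟨F, h1, h2, h3⟩ := hx ε hε D
  exact ⟨F, h1, h2, by linarith⟩

lemma adm_deg' {θ : ℝ} {P : ℤ[X]} (hP : Adm θ P) : 0 < P.natDegree := by
  by_contra h
  have h0 : P.natDegree = 0 := by omega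
  have h1 : P = 1 := hP.1.natDegree_eq_zero.mp h0
  exact hP.2.1.not_isUnit (h1 ▸ isUnit_one)

theorem stmt_POL (hTR0 : Stmt_TR0) : Stmt_POL := by
  intro θ₀ h0 hπ
  obtain ⟨C₀, s₁, hC₀, hs₁, hs₁', hT⟩ := hTR0 θ₀ h0 hπ
  have hlog2 : 0 < Real.log 2 := Real.log_pos (by norm_num)
  have hls : 0 < Real.log (2 / s₁) := Real.log_pos (by rw [lt_div_iff₀ hs₁]; linarith)
  set K : ℝ := 10 * s₁ + C₀ * (3 / 2 + Real.log (2 / s₁)) with hK
  have hKpos : 0 < K := by positivity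
  refine ⟨K / Real.log 2 + 2 * C₀, by positivity, ?_⟩
  intro θ hθ hθπ Ps hne hPs
  have hdg1 : 1 ≤ dg Ps := by
    obtain ⟨P, hP⟩ := hne
    have h2 := adm_deg' (hPs P hP)
    have h3 : P.natDegree ≤ dg Ps :=
      Finset.single_le_sum (f := fun P : ℤ[X] => P.natDegree) (fun _ _ => Nat.zero_le _) hP
    omega
  have hΔ : (1 : ℝ) ≤ (dg Ps : ℝ) := by exact_mod_cast hdg1
  set Δ : ℝ := (dg Ps : ℝ) with hΔdef
  have hΔ0 : 0 < Δ := by linarith
  have hinv : 1 / (2 * Δ) ≤ 1 / 2 := by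
    rw [div_le_div_iff₀ (by positivity) (by norm_num)]; linarith
  have hinv0 : 0 < 1 / (2 * Δ) := by positivity
  have hs : 0 < s₁ / Δ := by positivity
  have hsle : s₁ / Δ ≤ s₁ := div_le_self hs₁.le hΔ
  have h1 := hT (s₁ / Δ) (1 - 1 / (2 * Δ)) θ θ hs hsle (by linarith) (by linarith) hθ hθπ hθπ
    (by
      have : 0 ≤ s₁ / Δ * (1 - (1 - 1 / (2 * Δ))) / 4 := by
        have : (1 - (1 - 1 / (2 * Δ))) = 1 / (2 * Δ) := by ring
        rw [this]; positivity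
      linarith) Ps hne hPs
  refine ach_le' ?_ h1
  have e1 : (1 - (1 - 1 / (2 * Δ))) = 1 / (2 * Δ) := by ring
  rw [e1]
  have e2 : Δ * (1 / (2 * Δ)) = 1 / 2 := by field_simp
  rw [e2]
  have e3 : 1 / (s₁ / Δ * (1 / (2 * Δ))) = 2 / s₁ * Δ ^ 2 := by field_simp
  have e4 : Real.log (1 / (s₁ / Δ * (1 / (2 * Δ)))) = Real.log (2 / s₁) + 2 * Real.log Δ := by
    rw [e3, Real.log_mul (by positivity) (by positivity), Real.log_pow]
    norm_num
  rw [e4]
  have hl1 : Real.log 2 ≤ Real.log (Δ + 1) := Real.log_le_log (by norm_num) (by linarith)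
  have hl2 : Real.log Δ ≤ Real.log (Δ + 1) := Real.log_le_log hΔ0 (by linarith)
  have e5 : (∑ P ∈ Ps, Real.log (MM P)) / Δ + 10 * (s₁ / Δ) +
      C₀ * (1 / 2 + (Real.log (2 / s₁) + 2 * Real.log Δ) + 1) / Δ =
      (∑ P ∈ Ps, Real.log (MM P) + (K + 2 * C₀ * Real.log Δ)) / Δ := by
    rw [hK]; field_simp; ring
  rw [e5]
  apply div_le_div_of_nonneg_right _ hΔ0.le
  have h2 : K ≤ K / Real.log 2 * Real.log (Δ + 1) := by
    rw [div_mul_eq_mul_div, le_div_iff₀ hlog2]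
    exact mul_le_mul_of_nonneg_left hl1 hKpos.le
  have h3 : 2 * C₀ * Real.log Δ ≤ 2 * C₀ * Real.log (Δ + 1) :=
    mul_le_mul_of_nonneg_left hl2 (by positivity)
  nlinarith [h2, h3]

end Pool.Agent.Work.MP_ce2d68_st.helper30
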