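import Mathlib
import Pool.Agent.Work.MP_ce2d68_st.Interface

set_option autoImplicit false

open Polynomial Filter Topology
open scoped ComplexConjugate

namespace Pool.Agent.Work.MP_ce2d68_st.helper30

lemma ach_le {θ x y : ℝ} (h : x ≤ y) (hx : Ach θ x) : Ach θ y := by
  intro ε hε D
  obtain ⟨F, h1, h2, h3⟩ := hx ε hε D
  exact ⟨F, h1, h2, by linarith⟩

theorem stmt_STR (hBAS : Stmt_BAS) (hSTR1 : Stmt_STR1) (hSTR2 : Stmt_STR2) : Stmt_STR := by
  classical
  intro θ θ' L b h0 h1 h2 hL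
  have hL' : 0 < min L 1 := lt_min hL one_pos
  obtain ⟨c', γ2, hc', hγ2, D2, hD2⟩ := hSTR2 θ θ' (min L 1) (max b 1) h0 h1 h2 hL'
    (min_le_right _ _) (le_max_right _ _)
  obtain ⟨γ1, hγ1, D1, hD1⟩ := hSTR1 θ θ' (min L 1) c' h0 h1 h2 hL' (min_le_right _ _) hc'
  refine ⟨min γ1 γ2, lt_min hγ1 hγ2, max D1 D2, ?_⟩
  intro P hP hdeg hLv hvb
  obtain ⟨hd, -, hcard, -, hlog⟩ := hBAS P hP.1 hP.2.1
  have hdR : (0 : ℝ) < P.natDegree := by exact_mod_cast hd
  set L' := min L 1 with hL'def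
  have hLv' : L' ≤ lv P := (min_le_left _ _).trans hLv
  have hlv : lv P * P.natDegree = ∑ a ∈ rts P, Real.posLog ‖a‖ := by
    rw [← hlog]; unfold lv; field_simp
  -- splitting
  have hsplit : ∑ a ∈ rts P, Real.posLog ‖a‖ ≤ L' / 3 * P.natDegree +
      ∑ a ∈ gd (L' / 3) c' P, Real.log ‖a‖ + ∑ a ∈ lg c' P, Real.log ‖a‖ := by
    have e1 : ∑ a ∈ gd (L' / 3) c' P, Real.log ‖a‖ =
        ∑ a ∈ rts P, if (L' / 3 < Real.log ‖a‖ ∧ Real.log ‖a‖ ≤ c') then Real.log ‖a‖ else 0 := by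
      unfold gd
      rw [Finset.sum_filter]
    have e2 : ∑ a ∈ lg c' P, Real.log ‖a‖ =
        ∑ a ∈ rts P, if (c' < Real.log ‖a‖) then Real.log ‖a‖ else 0 := by
      unfold lg
      rw [Finset.sum_filter]
    have e3 : L' / 3 * P.natDegree = ∑ a ∈ rts P, L' / 3 := by
      rw [Finset.sum_const, hcard, nsmul_eq_mul, mul_comm]
    rw [e1, e2, e3, ← Finset.sum_add_distrib, ← Finset.sum_add_distrib]
    apply Finset.sum_le_sum
    intro a _
    rw [Real.posLog]
    by_cases ha : Real.log ‖a‖ ≤ L' / 3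
    · have h3 : max 0 (Real.log ‖a‖) ≤ L' / 3 := max_le (by linarith) ha
      rw [if_neg (fun h => absurd h.1 (not_lt.mpr ha))]
      by_cases hb : c' < Real.log ‖a‖
      · rw [if_pos hb]; linarith
      · rw [if_neg hb]; linarith
    · push Not at ha
      have h3 : max 0 (Real.log ‖a‖) = Real.log ‖a‖ := max_eq_right (by linarith)
      rw [h3]
      by_cases hb : c' < Real.log ‖a‖
      · rw [if_neg (fun h => absurd hb (not_lt.mpr h.2)), if_pos hb]; linarith
      · rw [if_pos ⟨ha, not_lt.mp hb⟩, if_neg hb]; linarith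
  have hcase : L' / 3 * P.natDegree ≤ ∑ a ∈ gd (L' / 3) c' P, Real.log ‖a‖ ∨
      L' / 3 * P.natDegree ≤ ∑ a ∈ lg c' P, Real.log ‖a‖ := by
    by_contra hcon
    push Not at hcon
    have h3 : L' * P.natDegree ≤ lv P * P.natDegree := mul_le_mul_of_nonneg_right hLv' hdR.le
    rw [hlv] at h3
    nlinarith [hcon.1, hcon.2]
  rcases hcase with h | h
  · exact ach_le (by have := min_le_left γ1 γ2; linarith)
      (hD1 P hP ((le_max_left _ _).trans hdeg) hLv' h)
  · exact ach_le (by have := min_le_right γ1 γ2; linarith)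
      (hD2 P hP ((le_max_right _ _).trans hdeg) hLv' (hvb.trans (le_max_left _ _)) h)

end Pool.Agent.Work.MP_ce2d68_st.helper30
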