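import Mathlib
import Pool.Agent.Work.MP_ce2d68_st.Interface

set_option autoImplicit false

open Polynomial Filter Topology
open scoped ComplexConjugate

namespace Pool.Agent.Work.MP_ce2d68_st.helper30

lemma ach_le'' {θ x y : ℝ} (h : x ≤ y) (hx : Ach θ x) : Ach θ y := by
  intro ε hε D
  obtain ⟨F, h1, h2, h3⟩ := hx ε hε D
  exact ⟨F, h1, h2, by linarith⟩

theorem stmt_CNT (hTR0 : Stmt_TR0) : Stmt_CNT := by
  intro θ₀ θ₁ h0 h01 hπ η hη
  obtain ⟨C₀, s₁, hC₀, hs₁, hs₁', hT⟩ := hTR0 θ₀ h0 (by linarith)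
  set s : ℝ := min s₁ (η / 40) with hs
  have hs0 : 0 < s := lt_min hs₁ (by linarith)
  have hs1 : s ≤ s₁ := min_le_left _ _
  have hs2 : s ≤ η / 40 := min_le_right _ _
  set u : ℝ := min (1 / 2) (η / (4 * C₀)) with hu
  have hu0 : 0 < u := lt_min (by norm_num) (by positivity)
  have hu1 : u ≤ 1 / 2 := min_le_left _ _
  have hu2 : u ≤ η / (4 * C₀) := min_le_right _ _
  have hCu : C₀ * u ≤ η / 4 := by
    have := mul_le_mul_of_nonneg_left hu2 hC₀.le
    have e : C₀ * (η / (4 * C₀)) = η / 4 := by field_simp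
    linarith
  set Λ : ℝ := Real.log (1 / (s * u)) with hΛ
  refine ⟨min (s * u / 4) ((Real.pi - θ₁) / 2), lt_min (by positivity) (by linarith),
    ⌈2 * C₀ * (|Λ| + 1) / η⌉₊ + 1, ?_⟩
  intro θ hθ0 hθ1 P hP hD
  have hδ1 := min_le_left (s * u / 4) ((Real.pi - θ₁) / 2)
  have hδ2 := min_le_right (s * u / 4) ((Real.pi - θ₁) / 2)
  have h1 := hT s (1 - u) θ (θ + min (s * u / 4) ((Real.pi - θ₁) / 2)) hs0 hs1 (by linarith)
    (by linarith) hθ0 (by linarith) (by linarith) (by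
      have : (1 - (1 - u)) = u := by ring
      rw [this]; linarith) {P} (Finset.singleton_nonempty _) (by
      intro Q hQ
      rw [Finset.mem_singleton] at hQ
      rw [hQ]; exact hP)
  refine ach_le'' ?_ h1
  have hdg : dg {P} = P.natDegree := by simp [dg]
  rw [hdg, Finset.sum_singleton]
  have e1 : (1 - (1 - u)) = u := by ring
  rw [e1]
  have hd : (0 : ℝ) < P.natDegree := by
    have : 0 < P.natDegree := by omega
    exact_mod_cast this
  have hD' : 2 * C₀ * (|Λ| + 1) / η ≤ P.natDegree := by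
    have h2 := Nat.le_ceil (2 * C₀ * (|Λ| + 1) / η)
    have h3 : ((⌈2 * C₀ * (|Λ| + 1) / η⌉₊ + 1 : ℕ) : ℝ) ≤ P.natDegree := by exact_mod_cast hD
    push_cast at h3
    linarith
  have h4 : C₀ * (|Λ| + 1) / P.natDegree ≤ η / 2 := by
    rw [div_le_iff₀ hη] at hD'
    rw [div_le_iff₀ hd]
    linarith
  have h5 : C₀ * (Λ + 1) / P.natDegree ≤ C₀ * (|Λ| + 1) / P.natDegree := by
    apply div_le_div_of_nonneg_right _ hd.le
    exact mul_le_mul_of_nonneg_left (by linarith [le_abs_self Λ]) hC₀.le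
  have e2 : Real.log (MM P) / P.natDegree + 10 * s +
      C₀ * (P.natDegree * u + Λ + 1) / P.natDegree =
      lv P + 10 * s + C₀ * u + C₀ * (Λ + 1) / P.natDegree := by
    unfold lv; field_simp; ring
  rw [e2]
  linarith

end Pool.Agent.Work.MP_ce2d68_st.helper30
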